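import Mathlib

namespace Pool.Agent.H.MP_d046ed_co.A

open Finset

open Classical in
noncomputable def b2f {t : ℕ} (ht : 2 ≤ t) (p : Prop) : Fin t :=
  if p then ⟨1, by omega⟩ else ⟨0, by omega⟩

theorem b2f_le {t : ℕ} (ht : 2 ≤ t) (p q : Prop) : b2f ht p ≤ b2f ht q ↔ (p → q) := by
  unfold b2f
  by_cases hp : p <;> by_cases hq : q <;> simp [hp, hq, Fin.le_def]

theorem bits_eq {a b M : ℕ} (ha : a < 2 ^ M) (hb : b < 2 ^ M)
    (h : ∀ i : Fin M, a.testBit i = b.testBit i) : a = b := by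
  apply Nat.eq_of_testBit_eq
  intro i
  by_cases hi : i < M
  · exact h ⟨i, hi⟩
  · have h2 : 2 ^ M ≤ 2 ^ i := Nat.pow_le_pow_right (by norm_num) (by omega)
    rw [Nat.testBit_lt_two_pow (by omega), Nat.testBit_lt_two_pow (by omega)]

/-- An antichain indexed by the numbers below `t ^ d`. -/
theorem anti {t d M : ℕ} (ht : 2 ≤ t) (hM : d * t < 2 ^ M) :
    ∃ A : Fin (t ^ d) → (Fin d ⊕ (Fin M × Bool) → Fin t), ∀ u v, A u ≤ A v → u = v := by
  let x : Fin (t ^ d) → Fin d → Fin t := fun u => finFunctionFinEquiv.symm u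
  let s : Fin (t ^ d) → ℕ := fun u => ∑ i, (x u i : ℕ)
  have hs : ∀ u, s u < 2 ^ M := by
    intro u
    have : s u ≤ ∑ _i : Fin d, t := Finset.sum_le_sum fun i _ => (x u i).2.le
    simp at this
    omega
  refine ⟨fun u => Sum.elim (x u) (fun q => b2f ht ((s u).testBit q.1 = q.2)), fun u v h => ?_⟩
  have h1 : ∀ i, (x u i : ℕ) ≤ x v i := fun i => h (Sum.inl i)
  have h2 : s u = s v := by
    refine bits_eq (hs u) (hs v) fun i => ?_
    have := (b2f_le ht _ _).1 (h (Sum.inr (i, (s u).testBit i)))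
    exact (this rfl).symm
  have h3 := (Finset.sum_eq_sum_iff_of_le (fun i _ => h1 i)).1 h2
  have h4 : x u = x v := funext fun i => Fin.ext (h3 i (mem_univ _))
  exact finFunctionFinEquiv.symm.injective h4

def Rel (K a b : ℕ) : Prop := ∀ p, K < p → a.factorization p = b.factorization p

open Classical in
noncomputable def rep (K a : ℕ) : ℕ := Nat.find (⟨a, fun _ _ => rfl⟩ : ∃ b, Rel K a b)

theorem rep_le (K a : ℕ) : rep K a ≤ a := by
  classical
  exact Nat.find_min' _ (fun _ _ => rfl)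

theorem rep_rel (K a : ℕ) : Rel K a (rep K a) := by
  classical
  exact Nat.find_spec (⟨a, fun _ _ => rfl⟩ : ∃ b, Rel K a b)

theorem rep_eq {K a b : ℕ} : rep K a = rep K b ↔ Rel K a b := by
  classical
  constructor
  · intro h p hp
    rw [rep_rel K a p hp, rep_rel K b p hp, h]
  · intro h
    apply le_antisymm
    · exact Nat.find_min' _ (fun p hp => (h p hp).trans (rep_rel K b p hp))
    · exact Nat.find_min' _ (fun p hp => (h p hp).symm.trans (rep_rel K a p hp))

theorem rel_of_dvd {K z b : ℕ} (hb : 0 < b) (h : z ∣ b) (hK : b ≤ K * z) : Rel K z b := by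
  obtain ⟨e, rfl⟩ := h
  have hz : 0 < z := Nat.pos_of_mul_pos_right hb
  have he : 0 < e := Nat.pos_of_mul_pos_left hb
  have heK : e ≤ K := by
    rw [mul_comm K z] at hK
    exact Nat.le_of_mul_le_mul_left hK hz
  intro p hp
  rw [Nat.factorization_mul hz.ne' he.ne']
  have : e.factorization p = 0 := Nat.factorization_eq_zero_of_lt (by omega)
  simp [this]

theorem fac_lt {z n L : ℕ} (hz : 0 < z) (hn : z ≤ n) (hL : n < 2 ^ 2 ^ L) (p : ℕ) :
    z.factorization p < 2 ^ L := by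
  by_cases hp : p.Prime
  · have h1 : p ^ z.factorization p ≤ z := Nat.ordProj_le p hz.ne'
    have h2 : 2 ^ z.factorization p ≤ p ^ z.factorization p := Nat.pow_le_pow_left hp.two_le _
    exact (Nat.pow_lt_pow_iff_right (by norm_num : 1 < 2)).1 (by omega)
  · rw [Nat.factorization_eq_zero_of_not_prime _ hp]
    positivity

theorem emb {t K L M d n : ℕ} (ht : 2 ≤ t) (hL1 : 0 < L) (Q : ℕ → Prop)
    (hQ : ∀ m, Q m → 0 < m ∧ m ≤ n) (hK : ∀ z b, Q z → Q b → z ∣ b → b ≤ K * z)
    (hd : n < t ^ d) (hL : n < 2 ^ 2 ^ L) (hM : d * t < 2 ^ M) :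
    ∃ f : {m // Q m} → (Fin (d + M * 2 + ((K + 1) * L) ^ K * 2 ^ K) → Fin t),
      ∀ x y, x.1 ∣ y.1 ↔ f x ≤ f y := by
  classical
  obtain ⟨A, hA⟩ := anti ht hM
  let bit : ℕ → Fin (K + 1) × Fin L → Bool := fun z q => (z.factorization q.1).testBit q.2
  let r : {m // Q m} → Fin (t ^ d) := fun x =>
    ⟨rep K x.1, lt_of_le_of_lt ((rep_le K x.1).trans (hQ _ x.2).2) hd⟩
  let g : {m // Q m} → ((Fin d ⊕ (Fin M × Bool)) ⊕
      ((Fin K → Fin (K + 1) × Fin L) × (Fin K → Bool)) → Fin t) := fun x =>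
    Sum.elim (A (r x)) (fun q => b2f ht (∃ z, Q z ∧ z ∣ x.1 ∧ ∀ j, bit z (q.1 j) = q.2 j))
  have hg : ∀ x y, x.1 ∣ y.1 ↔ g x ≤ g y := by
    intro x y
    constructor
    · intro h i
      have hr : r x = r y :=
        Fin.ext (rep_eq.2 (rel_of_dvd (hQ _ y.2).1 h (hK _ _ x.2 y.2 h)))
      rcases i with i | q
      · simp [g, hr]
      · refine (b2f_le ht _ _).2 ?_
        rintro ⟨z, h1, h2, h3⟩
        exact ⟨z, h1, h2.trans h, h3⟩
    · intro h
      by_contra hn
      have hr : r x = r y := hA _ _ fun i => h (Sum.inl i)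
      have hrel : Rel K x.1 y.1 := rep_eq.1 (congrArg Fin.val hr)
      have hS : ∀ j : Fin K, ∃ q : Fin (K + 1) × Fin L, ∀ z, Q z → z * (j + 1) = y.1 →
          bit z q ≠ bit x.1 q := by
        intro j
        by_cases hz : ∃ z, Q z ∧ z * (j + 1) = y.1
        · obtain ⟨z, hz1, hz2⟩ := hz
          have hzd : z ∣ y.1 := ⟨_, hz2.symm⟩
          have hzr := rel_of_dvd (hQ _ y.2).1 hzd (hK _ _ hz1 y.2 hzd)
          by_contra hc
          push Not at hc
          have hb : ∀ q, bit z q = bit x.1 q := by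
            intro q
            obtain ⟨z', -, h2, h3⟩ := hc q
            have : z' = z := Nat.eq_of_mul_eq_mul_right (Nat.succ_pos j) (h2.trans hz2.symm)
            rwa [this] at h3
          have : z = x.1 := by
            refine Nat.eq_of_factorization_eq (hQ _ hz1).1.ne' (hQ _ x.2).1.ne' fun p => ?_
            by_cases hp : K < p
            · rw [hzr p hp, hrel p hp]
            · exact bits_eq (fac_lt (hQ _ hz1).1 (hQ _ hz1).2 hL p)
                (fac_lt (hQ _ x.2).1 (hQ _ x.2).2 hL p) fun i => hb (⟨p, by omega⟩, i)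
          exact hn (this ▸ hzd)
        · exact ⟨(0, ⟨0, hL1⟩), fun z h1 h2 => absurd ⟨z, h1, h2⟩ hz⟩
      choose S hS using hS
      obtain ⟨z, h1, ⟨e, he⟩, h3⟩ := (b2f_le ht _ _).1 (h (Sum.inr (S, fun j => bit x.1 (S j))))
        ⟨x.1, x.2, dvd_rfl, fun _ => rfl⟩
      have hz : 0 < z := (hQ _ h1).1
      have he0 : 0 < e := Nat.pos_of_mul_pos_left (he ▸ (hQ _ y.2).1)
      have heK : e ≤ K := by
        have := hK _ _ h1 y.2 ⟨e, he⟩
        rw [he, mul_comm K z] at this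
        exact Nat.le_of_mul_le_mul_left this hz
      refine hS ⟨e - 1, by omega⟩ z h1 ?_ (h3 _)
      rw [he]
      congr 1
      simp only
      omega
  have hc : Fintype.card ((Fin d ⊕ (Fin M × Bool)) ⊕
      ((Fin K → Fin (K + 1) × Fin L) × (Fin K → Bool))) =
      d + M * 2 + ((K + 1) * L) ^ K * 2 ^ K := by simp
  let e := Fintype.equivFinOfCardEq hc
  refine ⟨fun x i => g x (e.symm i), fun x y => (hg x y).trans ⟨fun h i => h _, fun h i => ?_⟩⟩
  simpa using h (e i)

end Pool.Agent.H.MP_d046ed_co.A
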